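import Pool.Agent.H72.TR.Stm4

/-!
# 3SUM in three rounds: module INV
-/

set_option autoImplicit false

namespace Pool.Agent.H81.TR

open Finset Pool.Agent.H72.TR Pool.Agent.K4H88.Ter Pool.Agent.K4H88.Rounds

theorem sign_castZ (a : ℤ) : SignType.sign (a : ℝ) = SignType.sign a := by
  rcases lt_trichotomy a 0 with h | h | h
  · have h' : (a : ℝ) < 0 := by exact_mod_cast h
    rw [sign_neg h, sign_neg h']
  · rw [h, Int.cast_zero, sign_zero, sign_zero]
  · have h' : (0 : ℝ) < a := by exact_mod_cast h
    rw [sign_pos h, sign_pos h']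

/-- **Module INV.** -/
theorem inv : INV := by
  intro n r F
  induction F with
  | leaf c => intro _ x v _ _; rfl
  | round m L b child ih =>
    intro hT x v h1 h2
    obtain ⟨hT1, hT2⟩ := hT
    have hs : signs L b x = signs L b v := by
      funext l
      obtain ⟨hL, hb⟩ := hT1 l
      change SignType.sign (∑ u, L l u * (x u : ℝ) + b l) =
        SignType.sign (∑ u, L l u * (v u : ℝ) + b l)
      rw [hb, add_zero, add_zero]
      rcases hL with ⟨i, j, k, h⟩ | ⟨i, j, h⟩
      · have e : ∀ y : Fin n → ℤ, ∑ u, L l u * (y u : ℝ) = ((sm y (i, j, k) : ℤ) : ℝ) := by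
          intro y
          simp only [h, sm, add_mul, sub_mul, ite_mul, one_mul, zero_mul, sum_add_distrib,
            sum_sub_distrib, sum_ite_eq, mem_univ, if_true]
          push_cast
          ring
        rw [e x, e v, sign_castZ, sign_castZ, h1]
      · have e : ∀ y : Fin n → ℤ, ∑ u, L l u * (y u : ℝ) = ((y i - y j : ℤ) : ℝ) := by
          intro y
          simp only [h, sub_mul, ite_mul, one_mul, zero_mul, sum_sub_distrib, sum_ite_eq,
            mem_univ, if_true]
          push_cast
          ring
        rw [e x, e v, sign_castZ, sign_castZ, h2]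
    change m + (child (signs L b x)).cost x = m + (child (signs L b v)).cost v
    rw [hs, ih _ (hT2 _) x v h1 h2]

end Pool.Agent.H81.TR
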