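import Pool.Agent.H72.TR.Stm3

/-!
# 3SUM in two rounds: module NUM3
-/

set_option autoImplicit false

namespace Pool.Agent.H81.TR

open Pool.Agent.H72.TR

/-- **Module NUM3.** -/
theorem num3 : NUM3 := by
  intro n hn
  have hn5 : (5 : ℝ) ≤ n := by exact_mod_cast hn
  have hn0 : (0 : ℝ) < n := by linarith
  obtain ⟨r, hr⟩ : ∃ r : ℝ, r = ((n : ℝ) / 5) ^ (1 / 4 : ℝ) := ⟨_, rfl⟩
  have hr4 : r ^ 4 = (n : ℝ) / 5 := by
    rw [hr, ← Real.rpow_natCast, ← Real.rpow_mul (by positivity)]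
    norm_num
  have hr1 : 1 ≤ r := by
    rw [hr]
    exact Real.one_le_rpow (by linarith) (by norm_num)
  obtain ⟨w, hw⟩ : ∃ w : ℕ, w = ⌊r⌋₊ := ⟨_, rfl⟩
  have hwr : (w : ℝ) ≤ r := by
    rw [hw]
    exact Nat.floor_le (by linarith)
  have hwr' : r < w + 1 := by
    rw [hw]
    exact Nat.lt_floor_add_one r
  have hw1 : 1 ≤ w := by
    rw [hw]
    exact Nat.le_floor (by simpa using hr1)
  have hw1' : (1 : ℝ) ≤ w := by exact_mod_cast hw1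
  have hw4 : 5 * w ^ 4 ≤ n := by
    have h1 : (w : ℝ) ^ 4 ≤ r ^ 4 := pow_le_pow_left₀ (Nat.cast_nonneg _) hwr 4
    rw [hr4] at h1
    have h2 : (5 * (w : ℝ) ^ 4) ≤ n := by linarith
    exact_mod_cast h2
  obtain ⟨g, hg⟩ : ∃ g : ℕ, g = n / (5 * w) := ⟨_, rfl⟩
  have hgw : w ^ 3 ≤ g := by
    rw [hg, Nat.le_div_iff_mul_le (by omega)]
    calc w ^ 3 * (5 * w) = 5 * w ^ 4 := by ring
      _ ≤ n := hw4
  have hg1 : 1 ≤ g := le_trans (Nat.one_le_pow _ _ hw1) hgw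
  have hg5 : 5 * g * w ≤ n := by
    rw [hg]
    calc 5 * (n / (5 * w)) * w = n / (5 * w) * (5 * w) := by ring
      _ ≤ n := Nat.div_mul_le_self _ _
  have hg2 : n < (g + 1) * (5 * w) := by
    rw [hg]
    exact (Nat.div_lt_iff_lt_mul (by omega)).1 (Nat.lt_succ_self _)
  refine ⟨w, g, hw1, hg1, hg5, hgw, ?_⟩
  have hg1' : (1 : ℝ) ≤ g := by exact_mod_cast hg1
  have hg2' : (n : ℝ) ≤ 10 * g * w := by
    have h1 : (n : ℝ) ≤ (g + 1) * (5 * w) := by exact_mod_cast hg2.le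
    nlinarith [mul_nonneg (sub_nonneg.2 hg1') (le_trans zero_le_one hw1')]
  have hn14 : (n : ℝ) ^ (1 / 4 : ℝ) ≤ 3 / 2 * r := by
    have h1 : (n : ℝ) ≤ (3 / 2 * r) ^ 4 := by
      have h2 : (3 / 2 * r) ^ 4 = 81 / 16 * r ^ 4 := by ring
      rw [h2, hr4]
      linarith
    calc (n : ℝ) ^ (1 / 4 : ℝ) ≤ ((3 / 2 * r) ^ 4) ^ (1 / 4 : ℝ) :=
          Real.rpow_le_rpow hn0.le h1 (by norm_num)
      _ = 3 / 2 * r := by
          rw [← Real.rpow_natCast, ← Real.rpow_mul (by positivity)]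
          norm_num
  have hsq : (n : ℝ) ^ (9 / 4 : ℝ) = (n : ℝ) ^ 2 * (n : ℝ) ^ (1 / 4 : ℝ) := by
    rw [show (9 / 4 : ℝ) = 2 + 1 / 4 by norm_num, Real.rpow_add hn0]
    norm_num
  have h2 : (n : ℝ) ^ 2 ≤ (10 * g * w) ^ 2 := pow_le_pow_left₀ hn0.le hg2' 2
  rw [hsq]
  calc (n : ℝ) ^ 2 * (n : ℝ) ^ (1 / 4 : ℝ) ≤ (10 * g * w) ^ 2 * (3 / 2 * r) :=
        mul_le_mul h2 hn14 (by positivity) (by positivity)
    _ ≤ (10 * g * w) ^ 2 * (3 / 2 * (2 * w)) := by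
        refine mul_le_mul_of_nonneg_left ?_ (by positivity)
        linarith
    _ = 300 * ((g : ℝ) ^ 2 * w ^ 3) := by ring

end Pool.Agent.H81.TR
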