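import Pool.Agent.H72.TR.Stm4

/-!
# 3SUM in three rounds: module ROWS1
-/

set_option autoImplicit false

namespace Pool.Agent.H81.TR

open Finset Pool.Agent.H72.TR

theorem rk_lt {n : ℕ} {v : Fin n → ℤ} {a b : Fin n} (h : v a < v b) : rk v a < rk v b := by
  unfold rk
  refine Finset.card_lt_card ((Finset.ssubset_iff_of_subset ?_).2 ⟨a, ?_, ?_⟩)
  · intro u hu
    rw [mem_filter] at hu ⊢
    exact ⟨hu.1, hu.2.trans h⟩
  · rw [mem_filter]
    exact ⟨mem_univ _, h⟩
  · rw [mem_filter]
    exact fun h' => lt_irrefl _ h'.2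

theorem rk_inj {n : ℕ} {v : Fin n → ℤ} (hv : Function.Injective v) :
    Function.Injective (rk v) := by
  intro a b hab
  rcases lt_trichotomy (v a) (v b) with h | h | h
  · exact absurd hab (rk_lt h).ne
  · exact hv h
  · exact absurd hab (rk_lt h).ne'

theorem mem_Rset {n : ℕ} {v : Fin n → ℤ} {t : Fin n × Fin n × Fin n} :
    t ∈ Rset v ↔ ∃ l ∈ range (Nat.log 2 n + 2),
      rk v t.2.2 + 1 = below v t.1 t.2.1 + 2 ^ l ∨ rk v t.2.2 + 2 ^ l = below v t.1 t.2.1 := by
  unfold Rset
  simp only [mem_filter, mem_univ, true_and]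

/-- **Module ROWS1.** -/
theorem rows1 : ROWS1 := by
  classical
  intro n v hv
  have hch : ∀ t : Fin n × Fin n × Fin n, ∃ q : Bool × ℕ, t ∈ Rset v →
      q.2 ∈ range (Nat.log 2 n + 2) ∧
      (q.1 = true → rk v t.2.2 + 1 = below v t.1 t.2.1 + 2 ^ q.2) ∧
      (q.1 = false → rk v t.2.2 + 2 ^ q.2 = below v t.1 t.2.1) := by
    intro t
    by_cases ht : t ∈ Rset v
    · obtain ⟨l, hl, h | h⟩ := mem_Rset.1 ht
      · exact ⟨(true, l), fun _ => ⟨hl, fun _ => h, fun h0 => Bool.noConfusion h0⟩⟩
      · exact ⟨(false, l), fun _ => ⟨hl, fun h0 => Bool.noConfusion h0, fun _ => h⟩⟩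
    · exact ⟨(true, 0), fun h => absurd h ht⟩
  choose q hq using hch
  have hc : (Rset v).card ≤ ((univ : Finset (Fin n × Fin n)) ×ˢ
      ((univ : Finset Bool) ×ˢ range (Nat.log 2 n + 2))).card := by
    refine Finset.card_le_card_of_injOn (fun t => ((t.1, t.2.1), q t)) ?_ ?_
    · intro t ht
      have ht' : t ∈ Rset v := ht
      have h1 := (hq t ht').1
      simp only [coe_product, Set.mem_prod, mem_coe]
      exact ⟨mem_univ _, mem_univ _, h1⟩
    · intro t ht u hu htu
      have ht' : t ∈ Rset v := ht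
      have hu' : u ∈ Rset v := hu
      have e0 : ((t.1, t.2.1), q t) = ((u.1, u.2.1), q u) := htu
      have e1 : t.1 = u.1 := congrArg (fun s => s.1.1) e0
      have e2 : t.2.1 = u.2.1 := congrArg (fun s => s.1.2) e0
      have e3 : q t = q u := congrArg (fun s => s.2) e0
      obtain ⟨-, a1, a2⟩ := hq t ht'
      obtain ⟨-, b1, b2⟩ := hq u hu'
      rw [← e3, ← e1, ← e2] at b1 b2
      have e4 : rk v t.2.2 = rk v u.2.2 := by
        cases hb : (q t).1 with
        | true =>
          have := a1 hb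
          have := b1 hb
          omega
        | false =>
          have := a2 hb
          have := b2 hb
          omega
      exact Prod.ext e1 (Prod.ext e2 (rk_inj hv e4))
  refine hc.trans (le_of_eq ?_)
  rw [card_product, card_product, card_univ, card_univ, Fintype.card_prod, Fintype.card_fin,
    Fintype.card_bool, card_range]
  ring

end Pool.Agent.H81.TR
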