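import Pool.Agent.H72.TR.Stm5
import Pool.Agent.H81.TR.Rows1

/-!
# 3SUM in five rounds: modules ROWS5A, ROWS5B
-/

set_option autoImplicit false

namespace Pool.Agent.H81.TR

open Finset Pool.Agent.H72.TR

/-- In every row the rank of the third place is determined by a label `q`. -/
theorem card_rows {n : ℕ} {v : Fin n → ℤ} (hv : Function.Injective v) {γ : Type}
    (S : Finset (Fin n × Fin n × Fin n)) (W : Finset (Fin n × Fin n)) (Q : Finset γ)
    (rel : γ → ℕ → ℕ → Prop) (hrel : ∀ q r r' c, rel q r c → rel q r' c → r = r')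
    (h : ∀ t ∈ S, (t.1, t.2.1) ∈ W ∧ ∃ q ∈ Q, rel q (rk v t.2.2) (below v t.1 t.2.1)) :
    S.card ≤ W.card * Q.card := by
  classical
  rcases S.eq_empty_or_nonempty with hS | ⟨t0, ht0⟩
  · rw [hS]
    simp
  have : Nonempty γ := ⟨(h t0 ht0).2.choose⟩
  have hq : ∀ t : Fin n × Fin n × Fin n, t ∈ S →
      ∃ q : γ, q ∈ Q ∧ rel q (rk v t.2.2) (below v t.1 t.2.1) := fun t ht => (h t ht).2
  choose! q hq using hq
  rw [← card_product]
  refine Finset.card_le_card_of_injOn (fun t => ((t.1, t.2.1), q t)) ?_ ?_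
  · intro t ht
    have ht' : t ∈ S := ht
    exact mem_coe.2 (mem_product.2 ⟨(h t ht').1, (hq t ht').1⟩)
  · intro t ht u hu htu
    have ht' : t ∈ S := ht
    have hu' : u ∈ S := hu
    have e0 : ((t.1, t.2.1), q t) = ((u.1, u.2.1), q u) := htu
    have e1 : t.1 = u.1 := congrArg (fun s => s.1.1) e0
    have e2 : t.2.1 = u.2.1 := congrArg (fun s => s.1.2) e0
    have e3 : q t = q u := congrArg (fun s => s.2) e0
    have a := (hq t ht').2
    have b := (hq u hu').2
    rw [← e3, ← e1, ← e2] at b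
    exact Prod.ext e1 (Prod.ext e2 (rk_inj hv (hrel _ _ _ _ a b)))

theorem mem_Ver {n : ℕ} {v : Fin n → ℤ} {t : Fin n × Fin n × Fin n} :
    t ∈ Ver v ↔ rk v t.2.2 + 1 = below v t.1 t.2.1 ∨ rk v t.2.2 = below v t.1 t.2.1 ∨
      rk v t.2.2 = below v t.1 t.2.1 + 1 := by
  unfold Ver
  simp only [mem_filter, mem_univ, true_and]

theorem mem_Gset {n : ℕ} {v : Fin n → ℤ} {lab : Fin n × Fin n × Fin n → Bool}
    {t : Fin n × Fin n × Fin n} :
    t ∈ Gset v lab ↔ (∃ t' ∈ Ver v, t'.1 = t.1 ∧ t'.2.1 = t.2.1 ∧ lab t' ≠ Lab v t') ∧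
    ∃ a l : ℕ, 1 ≤ a ∧ a ≤ 2 * (Nat.log 2 n + 1) ∧ l ≤ Nat.log 2 n + 1 ∧
      (rk v t.2.2 + 1 = below v t.1 t.2.1 + a * 2 ^ l ∨
        rk v t.2.2 + a * 2 ^ l = below v t.1 t.2.1) := by
  unfold Gset
  simp only [mem_filter, mem_univ, true_and]

/-- **Module ROWS5A.** -/
theorem rows5a : ROWS5A := by
  intro n v hv
  have h := card_rows hv (Ver v) univ (range 3) (fun q r c => r + 1 = c + q)
    (fun q r r' c h h' => by omega) (fun t ht => ⟨mem_univ _, by
      rcases mem_Ver.1 ht with h | h | h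
      · exact ⟨0, by simp, by simpa using h⟩
      · exact ⟨1, by simp, by omega⟩
      · exact ⟨2, by simp, by omega⟩⟩)
  refine h.trans (le_of_eq ?_)
  rw [card_univ, Fintype.card_prod, Fintype.card_fin, card_range]
  ring

/-- **Module ROWS5B.** -/
theorem rows5b : ROWS5B := by
  intro n x v hv
  unfold wr
  have h := card_rows hv (Gset v (mask (Ver v) (Lab x)))
    (@filter _ (fun i : Fin n × Fin n => ∃ t, rw3 t = i ∧ Lab v t ≠ Lab x t)
      (fun _ => Classical.propDecidable _) univ)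
    ((univ : Finset Bool) ×ˢ (Icc 1 (2 * (Nat.log 2 n + 1)) ×ˢ range (Nat.log 2 n + 2)))
    (fun q r c => (q.1 = true ∧ r + 1 = c + q.2.1 * 2 ^ q.2.2) ∨
      (q.1 = false ∧ r + q.2.1 * 2 ^ q.2.2 = c))
    (fun q r r' c h h' => by
      rcases h with ⟨h1, h2⟩ | ⟨h1, h2⟩ <;> rcases h' with ⟨h1', h2'⟩ | ⟨h1', h2'⟩
      · omega
      · rw [h1] at h1'
        exact Bool.noConfusion h1'
      · rw [h1] at h1'
        exact Bool.noConfusion h1'
      · omega)
    (fun t ht => by
      obtain ⟨⟨t', ht', e1, e2, e3⟩, a, l, ha, ha2, hl, hh⟩ := mem_Gset.1 ht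
      refine ⟨?_, ?_⟩
      · simp only [mem_filter, mem_univ, true_and]
        refine ⟨t', ?_, ?_⟩
        · unfold rw3
          rw [e1, e2]
        · unfold mask at e3
          rw [if_pos ht'] at e3
          exact fun h => e3 h.symm
      · rcases hh with hh | hh
        · refine ⟨(true, a, l), ?_, Or.inl ⟨rfl, hh⟩⟩
          simp only [mem_product, mem_univ, true_and, mem_Icc, mem_range]
          omega
        · refine ⟨(false, a, l), ?_, Or.inr ⟨rfl, hh⟩⟩
          simp only [mem_product, mem_univ, true_and, mem_Icc, mem_range]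
          omega)
  refine h.trans (le_of_eq ?_)
  rw [card_product, card_product, card_univ, Fintype.card_bool, Nat.card_Icc, card_range]
  congr 1
  rw [Nat.add_sub_cancel]
  ring

end Pool.Agent.H81.TR
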