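import Pool.Agent.H72.TR.Stm

/-!
# 3SUM in two rounds: module SECOND
-/

set_option autoImplicit false

namespace Pool.Agent.H81.TR

open Finset Pool.Agent.H72.TR Pool.Agent.K4H88.Ter Pool.Agent.K4H88.Rounds

theorem rtree_succ {n r : ℕ} (F : RTree n (r + 1)) :
    (∃ c, F = RTree.leaf c) ∨ ∃ (m : ℕ) (L : Fin m → Fin n → ℝ) (b : Fin m → ℝ)
      (child : (Fin m → SignType) → RTree n r), F = RTree.round m L b child := by
  cases F with
  | leaf c => exact Or.inl ⟨c, rfl⟩
  | round m L b child => exact Or.inr ⟨m, L, b, child, rfl⟩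

theorem eval_zero {n : ℕ} (F : RTree n 0) (x y : Fin n → ℤ) : F.eval x = F.eval y := by
  cases F with
  | leaf c => rfl

theorem hasSum3_comp {n : ℕ} (x : Fin n → ℤ) (π : Equiv.Perm (Fin n)) :
    HasSum3 (x ∘ π) ↔ HasSum3 x := by
  constructor
  · rintro ⟨i, j, k, h1, h2, h3, h4⟩
    exact ⟨π i, π j, π k, π.injective.ne h1, π.injective.ne h2, π.injective.ne h3, h4⟩
  · rintro ⟨i, j, k, h1, h2, h3, h4⟩
    refine ⟨π.symm i, π.symm j, π.symm k, π.symm.injective.ne h1, π.symm.injective.ne h2,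
      π.symm.injective.ne h3, ?_⟩
    simpa using h4

theorem out_comp {n : ℕ} (c : Fin n → ℝ) (b : ℝ) (x : Fin n → ℤ) (π : Equiv.Perm (Fin n)) :
    out c b (x ∘ π) = out (c ∘ π.symm) b x := by
  unfold out
  congr 2
  rw [← Equiv.sum_comp π (fun v => (c ∘ π.symm) v * (x v : ℝ))]
  refine Finset.sum_congr rfl fun u _ => ?_
  simp

theorem threeTerms_comp {n : ℕ} {c : Fin n → ℝ} (h : ThreeTerms c) (π : Equiv.Perm (Fin n)) :
    ThreeTerms (c ∘ π.symm) := by
  obtain ⟨s, p, hs, h⟩ := h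
  refine ⟨s, π ∘ p, hs, fun u => ?_⟩
  show c (π.symm u) = _
  rw [h (π.symm u)]
  refine Finset.sum_congr rfl fun l _ => ?_
  have : (p l = π.symm u) ↔ ((π ∘ p) l = u) := by
    rw [Function.comp_apply, Equiv.eq_symm_apply]
  simp only [this]

theorem isForm_comp {n : ℕ} {c : Fin n → ℝ} {i j k : Fin n} {π : Equiv.Perm (Fin n)}
    (h : IsForm (c ∘ π.symm) i j k) : IsForm c (π.symm i) (π.symm j) (π.symm k) := by
  have e : ∀ (i u : Fin n), (π.symm i = u) ↔ (i = π u) := fun i u => Equiv.symm_apply_eq π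
  rcases h with h | h
  · left
    intro u
    have := h (π u)
    simp only [Function.comp_apply, Equiv.symm_apply_apply] at this
    rw [this]
    simp only [e]
  · right
    intro u
    have := h (π u)
    simp only [Function.comp_apply, Equiv.symm_apply_apply] at this
    rw [this]
    simp only [e]

/-- the values of a form -/
theorem form_vals {n : ℕ} {c : Fin n → ℝ} {i j k : Fin n} (hij : i ≠ j) (hik : i ≠ k)
    (hjk : j ≠ k)
    (h : ∀ u, c u = (if i = u then 1 else 0) + (if j = u then 1 else 0) - (if k = u then 1 else 0)) :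
    c i = 1 ∧ c j = 1 ∧ c k = -1 ∧ (∀ u, c u = 1 → u = i ∨ u = j) ∧ ∀ u, c u = -1 → u = k := by
  refine ⟨?_, ?_, ?_, fun u hu => ?_, fun u hu => ?_⟩
  · rw [h i, if_pos rfl, if_neg hij.symm, if_neg hik.symm]
    norm_num
  · rw [h j, if_neg hij, if_pos rfl, if_neg hjk.symm]
    norm_num
  · rw [h k, if_neg hik, if_neg hjk, if_pos rfl]
    norm_num
  · rw [h u] at hu
    by_contra hne
    push Not at hne
    rw [if_neg (fun h => hne.1 h.symm), if_neg (fun h => hne.2 h.symm)] at hu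
    split_ifs at hu <;> norm_num at hu
  · rw [h u] at hu
    by_contra hne
    rw [if_neg (fun h : k = u => hne h.symm)] at hu
    split_ifs at hu <;> norm_num at hu

theorem isForm_unique {n : ℕ} {c : Fin n → ℝ} {i j k i' j' k' : Fin n} (hij : i ≠ j)
    (hik : i ≠ k) (hjk : j ≠ k) (hij' : i' ≠ j') (hik' : i' ≠ k') (hjk' : j' ≠ k')
    (h : IsForm c i j k) (h' : IsForm c i' j' k') :
    k = k' ∧ ((i = i' ∧ j = j') ∨ (i = j' ∧ j = i')) := by
  have same : ∀ c : Fin n → ℝ,
      (∀ u, c u = (if i = u then 1 else 0) + (if j = u then 1 else 0) -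
        (if k = u then 1 else 0)) →
      (∀ u, c u = (if i' = u then 1 else 0) + (if j' = u then 1 else 0) -
        (if k' = u then 1 else 0)) → k = k' ∧ ((i = i' ∧ j = j') ∨ (i = j' ∧ j = i')) := by
    intro c h h'
    obtain ⟨a1, a2, a3, a4, a5⟩ := form_vals hij hik hjk h
    obtain ⟨b1, b2, b3, b4, b5⟩ := form_vals hij' hik' hjk' h'
    refine ⟨b5 k a3, ?_⟩
    rcases b4 i a1 with e1 | e1 <;> rcases b4 j a2 with e2 | e2
    · exact absurd (e1.trans e2.symm) hij
    · exact Or.inl ⟨e1, e2⟩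
    · exact Or.inr ⟨e1, e2⟩
    · exact absurd (e1.trans e2.symm) hij
  have diff : ∀ c : Fin n → ℝ, ∀ {i j k i' j' k' : Fin n}, i ≠ j → i ≠ k → j ≠ k →
      i' ≠ j' → i' ≠ k' → j' ≠ k' →
      (∀ u, c u = (if i = u then 1 else 0) + (if j = u then 1 else 0) -
        (if k = u then 1 else 0)) →
      (∀ u, -c u = (if i' = u then 1 else 0) + (if j' = u then 1 else 0) -
        (if k' = u then 1 else 0)) → False := by
    intro c i j k i' j' k' hij hik hjk hij' hik' hjk' h h'
    obtain ⟨a1, a2, a3, a4, a5⟩ := form_vals hij hik hjk h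
    obtain ⟨b1, b2, b3, b4, b5⟩ := form_vals (c := fun u => -c u) hij' hik' hjk' h'
    have e1 := b5 i (by simp [a1])
    have e2 := b5 j (by simp [a2])
    exact hij (e1.trans e2.symm)
  rcases h with h | h <;> rcases h' with h' | h'
  · exact same c h h'
  · exact (diff c hij hik hjk hij' hik' hjk' h h').elim
  · exact (diff c hij' hik' hjk' hij hik hjk h' h).elim
  · exact same (fun u => -c u) h h'

theorem bl_mk {n w : ℕ} (hw : 1 ≤ w) (A : ℕ) (i : Fin w) (h : A * w + i < n) :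
    bl w (⟨A * w + i, h⟩ : Fin n) = A := by
  show (A * w + i) / w = A
  rw [mul_comm, Nat.mul_add_div hw, Nat.div_eq_of_lt i.2, add_zero]

/-- **Module SECOND.** -/
theorem second (hI : INST) : SECOND := by
  classical
  intro n w m S hw hn hm hS
  obtain ⟨x, hx1, hx2, hx3⟩ := hI n w m S hw hn hS
  refine ⟨x, hx1, hx2, ?_⟩
  intro F hF hFc
  have hlt : ∀ A, A < 3 * m → ∀ i : Fin w, A * w + i < n := by
    intro A hA i
    have h1 : (A + 1) * w ≤ 3 * m * w := Nat.mul_le_mul_right _ hA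
    have h2 := i.2
    have h3 : 3 * m * w = 3 * w * m := by ring
    have h4 : (A + 1) * w = A * w + w := by ring
    omega
  rcases rtree_succ F with ⟨c, rfl⟩ | ⟨mm, L, b, child, rfl⟩
  · exfalso
    obtain ⟨y, z, hy, hz, hy', hz', -, -⟩ := hx3 0 m (by omega) le_rfl (by omega)
      ⟨0 * w + (⟨0, hw⟩ : Fin w), hlt 0 (by omega) ⟨0, hw⟩⟩
      ⟨m * w + (⟨0, hw⟩ : Fin w), hlt m (by omega) ⟨0, hw⟩⟩
      ⟨(0 + m + 1) * w + (⟨0, hw⟩ : Fin w), hlt (0 + m + 1) (by omega) ⟨0, hw⟩⟩
      ⟨bl_mk hw _ _ _, bl_mk hw _ _ _, bl_mk hw _ _ _⟩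
    have h1 := (hFc z hz).2 hz'
    have h2 := hFc x hx1
    exact hx2 (h2.1 h1)
  · obtain ⟨hT1, hT2⟩ := hF
    refine ⟨mm, L, fun l => (hT1 l).1, fun π => ?_⟩
    obtain ⟨σ, hσ⟩ : ∃ σ, σ = signs L b (x ∘ π) := ⟨_, rfl⟩
    obtain ⟨U, hU⟩ : ∃ U, U = (range m ×ˢ Ico m (2 * m)).filter
      fun q => ¬ Hit w L π q.1 q.2 := ⟨_, rfl⟩
    rw [← hU]
    have hcost : RTree.cost (RTree.round mm L b child) (x ∘ π) =
        mm + (child σ).cost (x ∘ π) := by
      rw [hσ]
      rfl
    rw [hcost]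
    refine Nat.add_le_add_left ?_ _
    have hUm : ∀ q ∈ U, q.1 < m ∧ m ≤ q.2 ∧ q.2 < 2 * m ∧ ¬ Hit w L π q.1 q.2 := by
      intro q hq
      rw [hU, mem_filter, mem_product, mem_range, mem_Ico] at hq
      exact ⟨hq.1.1, hq.1.2.1, hq.1.2.2, hq.2⟩
    have hyz : ∀ q ∈ U, ∀ a b' c : Fin n, In w q.1 q.2 a b' c → ∃ y z : Fin n → ℤ,
        (child σ).eval (y ∘ π) = false ∧ (child σ).eval (z ∘ π) = true ∧
        ∀ (L' : Fin n → ℝ) (β : ℝ), ThreeTerms L' → |β| < S → ¬ IsForm L' a b' c →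
          out L' β z = out L' β y := by
      intro q hq a b' c hin
      obtain ⟨q1, q2, q3, q4⟩ := hUm q hq
      obtain ⟨y, z, hy, hz, hy', hz', h1, h2⟩ := hx3 q.1 q.2 q1 q2 q3 a b' c hin
      have hl : ∀ l, ¬ ∃ i j k, IsForm (L l ∘ π.symm) i j k ∧ In w q.1 q.2 i j k := by
        rintro l ⟨i, j, k, h3, h4⟩
        refine q4 ⟨l, π.symm i, π.symm j, π.symm k, isForm_comp h3, ?_⟩
        simpa using h4
      have hsy : signs L b (y ∘ π) = σ := by
        rw [hσ]
        funext l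
        have h5 := (h1 (L l ∘ π.symm) (b l) (threeTerms_comp (hT1 l).1 π) (hT1 l).2 (hl l)).1
        rw [← out_comp, ← out_comp] at h5
        exact h5
      have hsz : signs L b (z ∘ π) = σ := by
        rw [hσ]
        funext l
        have h5 := (h1 (L l ∘ π.symm) (b l) (threeTerms_comp (hT1 l).1 π) (hT1 l).2 (hl l)).2
        rw [← out_comp, ← out_comp] at h5
        exact h5
      refine ⟨y, z, ?_, ?_, h2⟩
      · have h6 := hFc (y ∘ π) (hy.comp π.injective)
        rw [hasSum3_comp] at h6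
        have h7 : (RTree.round mm L b child).eval (y ∘ π) = (child σ).eval (y ∘ π) := by
          rw [← hsy]
          rfl
        rw [h7] at h6
        by_contra h8
        exact hy' (h6.1 (by simpa using h8))
      · have h6 := hFc (z ∘ π) (hz.comp π.injective)
        rw [hasSum3_comp] at h6
        have h7 : (RTree.round mm L b child).eval (z ∘ π) = (child σ).eval (z ∘ π) := by
          rw [← hsz]
          rfl
        rw [h7] at h6
        exact h6.2 hz'
    -- the places of the blocks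
    let P : U × (Fin w × Fin w × Fin w) → Fin n × Fin n × Fin n := fun u =>
      (⟨u.1.1.1 * w + u.2.1, hlt _ (by have := hUm _ u.1.2; omega) _⟩,
        ⟨u.1.1.2 * w + u.2.2.1, hlt _ (by have := hUm _ u.1.2; omega) _⟩,
        ⟨(u.1.1.1 + u.1.1.2 + 1) * w + u.2.2.2, hlt _ (by have := hUm _ u.1.2; omega) _⟩)
    have hP : ∀ u, In w u.1.1.1 u.1.1.2 (P u).1 (P u).2.1 (P u).2.2 := fun u =>
      ⟨bl_mk hw _ _ _, bl_mk hw _ _ _, bl_mk hw _ _ _⟩
    rcases U.eq_empty_or_nonempty with hUe | ⟨q0, hq0⟩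
    · rw [hUe]
      simp
    rcases rtree_succ (child σ) with ⟨c, hc⟩ | ⟨m2, L2, b2, child2, hc⟩
    · exfalso
      obtain ⟨y, z, h1, h2, -⟩ := hyz q0 hq0 _ _ _ (hP (⟨q0, hq0⟩, (⟨0, hw⟩, ⟨0, hw⟩, ⟨0, hw⟩)))
      rw [hc] at h1 h2
      have h3 : c = false := h1
      have h4 : c = true := h2
      rw [h3] at h4
      exact Bool.noConfusion h4
    · have hT3 : ∀ j, ThreeTerms (L2 j) ∧ |b2 j| < (S : ℝ) := by
        have h1 := hT2 σ
        rw [hc] at h1
        exact h1.1
      have hl2 : ∀ u : U × (Fin w × Fin w × Fin w), ∃ l : Fin m2,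
          IsForm (L2 l ∘ π.symm) (P u).1 (P u).2.1 (P u).2.2 := by
        intro u
        obtain ⟨y, z, h1, h2, h3⟩ := hyz u.1.1 u.1.2 _ _ _ (hP u)
        by_contra hno
        push Not at hno
        have h4 : signs L2 b2 (z ∘ π) = signs L2 b2 (y ∘ π) := by
          funext l
          have h5 := h3 (L2 l ∘ π.symm) (b2 l) (threeTerms_comp (hT3 l).1 π) (hT3 l).2 (hno l)
          rw [← out_comp, ← out_comp] at h5
          exact h5
        rw [hc] at h1 h2
        have h6 : (child2 (signs L2 b2 (y ∘ π))).eval (y ∘ π) = false := h1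
        have h7 : (child2 (signs L2 b2 (z ∘ π))).eval (z ∘ π) = true := h2
        rw [h4, eval_zero _ (z ∘ π) (y ∘ π), h6] at h7
        exact Bool.noConfusion h7
      choose l hl using hl2
      have hinj : Function.Injective l := by
        intro u v huv
        have h1 := hl u
        have h2 := hl v
        rw [huv] at h1
        obtain ⟨a1, a2, a3⟩ := hP u
        obtain ⟨b1, b2, b3⟩ := hP v
        have hu := hUm _ u.1.2
        have hv := hUm _ v.1.2
        have hne : ∀ {i j : Fin n}, bl w i ≠ bl w j → i ≠ j := fun h e => h (by rw [e])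
        obtain ⟨e1, e2⟩ := isForm_unique (hne (by omega)) (hne (by omega)) (hne (by omega))
          (hne (by omega)) (hne (by omega)) (hne (by omega)) h1 h2
        rcases e2 with ⟨e2, e3⟩ | ⟨e2, e3⟩
        · have f1 : u.1.1.1 = v.1.1.1 := by rw [← a1, ← b1, e2]
          have f2 : u.1.1.2 = v.1.1.2 := by rw [← a2, ← b2, e3]
          have g1 : u.1.1.1 * w + (u.2.1 : ℕ) = v.1.1.1 * w + v.2.1 := congrArg Fin.val e2
          have g2 : u.1.1.2 * w + (u.2.2.1 : ℕ) = v.1.1.2 * w + v.2.2.1 := congrArg Fin.val e3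
          have g3 : (u.1.1.1 + u.1.1.2 + 1) * w + (u.2.2.2 : ℕ) =
              (v.1.1.1 + v.1.1.2 + 1) * w + v.2.2.2 := congrArg Fin.val e1
          rw [f1] at g1 g3
          rw [f2] at g2 g3
          refine Prod.ext (Subtype.ext (Prod.ext f1 f2)) (Prod.ext (Fin.ext ?_)
            (Prod.ext (Fin.ext ?_) (Fin.ext ?_))) <;> omega
        · exfalso
          have f1 : u.1.1.1 = v.1.1.2 := by rw [← a1, ← b2, e2]
          omega
      have hcard := Fintype.card_le_of_injective l hinj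
      rw [Fintype.card_prod, Fintype.card_prod, Fintype.card_prod, Fintype.card_coe,
        Fintype.card_fin, Fintype.card_fin] at hcard
      rw [hc]
      have h1 : RTree.cost (RTree.round m2 L2 b2 child2) (x ∘ π) =
        m2 + (child2 (signs L2 b2 (x ∘ π))).cost (x ∘ π) := rfl
      rw [h1]
      have h2 : w ^ 3 * U.card = U.card * (w * (w * w)) := by ring
      omega

end Pool.Agent.H81.TR
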