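import Pool.Agent.H72.TR.Stm2
import Pool.Agent.H81.TR.Second

/-!
# 3SUM in two rounds: module SECOND2
-/

set_option autoImplicit false

namespace Pool.Agent.H81.TR

open Finset Pool.Agent.H72.TR Pool.Agent.K4H88.Ter Pool.Agent.K4H88.Rounds

/-- **Module SECOND2.** -/
theorem second2 (hI : INST2) : SECOND2 := by
  classical
  intro n w m S hn1 hw hn hS
  obtain ⟨x, hx1, hxr, hx2, hx3⟩ := hI n w m S hn1 hw hn hS
  have hyz : ∀ t : Fin n × Fin n × Fin n, ∃ y z : Fin n → ℤ, t ∈ Tri n w m →
      (Function.Injective y ∧ Rng (1000 * S * n ^ 2) y ∧ ¬ HasSum3 y) ∧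
      (Function.Injective z ∧ Rng (1000 * S * n ^ 2) z ∧ HasSum3 z) ∧
        (∀ (L : Fin n → ℝ) (β : ℝ), ThreeTerms L → |β| < S →
          (¬ ∃ i j k, IsForm L i j k ∧ In w (bl w t.1) (bl w t.2.1) i j k) →
            out L β y = out L β x ∧ out L β z = out L β x) ∧
        ∀ (L : Fin n → ℝ) (β : ℝ), ThreeTerms L → |β| < S → ¬ IsForm L t.1 t.2.1 t.2.2 →
          out L β z = out L β y := by
    intro t
    by_cases ht : t ∈ Tri n w m
    · obtain ⟨y, z, h⟩ := hx3 t ht
      exact ⟨y, z, fun _ => h⟩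
    · exact ⟨0, 0, fun h => absurd h ht⟩
  choose y z hyz using hyz
  refine ⟨x, y, z, ⟨hx1, hxr, hx2⟩, fun t ht => (hyz t ht).1, fun t ht => (hyz t ht).2.1, ?_⟩
  intro F hF
  rcases rtree_succ F with ⟨c, rfl⟩ | ⟨mm, L, b, child, rfl⟩
  · refine ⟨0, fun l => l.elim0, fun l => l.elim0, fun π => ?_⟩
    have hE : ((Tri n w m).filter fun t => ¬ Hit w (fun l : Fin 0 => l.elim0) π (bl w t.1)
        (bl w t.2.1) ∧ (RTree.leaf c : RTree n 2).eval (y t ∘ π) = false ∧
          (RTree.leaf c : RTree n 2).eval (z t ∘ π) = true) = ∅ := by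
      rw [filter_eq_empty_iff]
      rintro t - ⟨-, h1, h2⟩
      have h3 : c = false := h1
      have h4 : c = true := h2
      rw [h3] at h4
      exact Bool.noConfusion h4
    rw [hE]
    simp
  · obtain ⟨hT1, hT2⟩ := hF
    refine ⟨mm, L, fun l => (hT1 l).1, fun π => ?_⟩
    obtain ⟨σ, hσ⟩ : ∃ σ, σ = signs L b (x ∘ π) := ⟨_, rfl⟩
    have hcost : RTree.cost (RTree.round mm L b child) (x ∘ π) =
        mm + (child σ).cost (x ∘ π) := by
      rw [hσ]
      rfl
    rw [hcost]
    refine Nat.add_le_add_left ?_ _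
    obtain ⟨U, hU⟩ : ∃ U, U = (Tri n w m).filter fun t => ¬ Hit w L π (bl w t.1) (bl w t.2.1) ∧
            (RTree.round mm L b child).eval (y t ∘ π) = false ∧
            (RTree.round mm L b child).eval (z t ∘ π) = true := ⟨_, rfl⟩
    rw [← hU]
    have hUm : ∀ t ∈ U, t ∈ Tri n w m ∧ (child σ).eval (y t ∘ π) = false ∧
        (child σ).eval (z t ∘ π) = true := by
      intro t ht
      rw [hU, mem_filter] at ht
      obtain ⟨h0, h1, h2, h3⟩ := ht
      obtain ⟨-, -, k1, k2⟩ := hyz t h0
      have hl : ∀ l, ¬ ∃ i j k, IsForm (L l ∘ π.symm) i j k ∧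
          In w (bl w t.1) (bl w t.2.1) i j k := by
        rintro l ⟨i, j, k, h4, h5⟩
        refine h1 ⟨l, π.symm i, π.symm j, π.symm k, isForm_comp h4, ?_⟩
        simpa using h5
      have hsy : signs L b (y t ∘ π) = σ := by
        rw [hσ]
        funext l
        have h5 := (k1 (L l ∘ π.symm) (b l) (threeTerms_comp (hT1 l).1 π) (hT1 l).2 (hl l)).1
        rw [← out_comp, ← out_comp] at h5
        exact h5
      have hsz : signs L b (z t ∘ π) = σ := by
        rw [hσ]
        funext l
        have h5 := (k1 (L l ∘ π.symm) (b l) (threeTerms_comp (hT1 l).1 π) (hT1 l).2 (hl l)).2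
        rw [← out_comp, ← out_comp] at h5
        exact h5
      refine ⟨h0, ?_, ?_⟩
      · rw [← h2, ← hsy]
        rfl
      · rw [← h3, ← hsz]
        rfl
    rcases U.eq_empty_or_nonempty with hUe | ⟨t0, ht0⟩
    · rw [hUe]
      simp
    rcases rtree_succ (child σ) with ⟨c, hc⟩ | ⟨m2, L2, b2, child2, hc⟩
    · exfalso
      obtain ⟨-, h1, h2⟩ := hUm t0 ht0
      rw [hc] at h1 h2
      have h3 : c = false := h1
      have h4 : c = true := h2
      rw [h3] at h4
      exact Bool.noConfusion h4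
    · have hT3 : ∀ j, ThreeTerms (L2 j) ∧ |b2 j| < (S : ℝ) := by
        have h1 := hT2 σ
        rw [hc] at h1
        exact h1.1
      have hl2 : ∀ t : Fin n × Fin n × Fin n, t ∈ U → ∃ l : Fin m2,
          IsForm (L2 l ∘ π.symm) t.1 t.2.1 t.2.2 := by
        intro t ht
        obtain ⟨h0, h1, h2⟩ := hUm t ht
        obtain ⟨-, -, -, h3⟩ := hyz t h0
        by_contra hno
        push Not at hno
        have h4 : signs L2 b2 (z t ∘ π) = signs L2 b2 (y t ∘ π) := by
          funext l
          have h5 := h3 (L2 l ∘ π.symm) (b2 l) (threeTerms_comp (hT3 l).1 π) (hT3 l).2 (hno l)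
          rw [← out_comp, ← out_comp] at h5
          exact h5
        rw [hc] at h1 h2
        have h6 : (child2 (signs L2 b2 (y t ∘ π))).eval (y t ∘ π) = false := h1
        have h7 : (child2 (signs L2 b2 (z t ∘ π))).eval (z t ∘ π) = true := h2
        rw [h4, eval_zero _ (z t ∘ π) (y t ∘ π), h6] at h7
        exact Bool.noConfusion h7
      have hne2 : Nonempty (Fin m2) := ⟨(hl2 t0 ht0).choose⟩
      choose! l hl using hl2
      have hinj : Set.InjOn l (U : Set (Fin n × Fin n × Fin n)) := by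
        intro u hu v hv huv
        have h1 := hl u hu
        have h2 := hl v hv
        rw [huv] at h1
        obtain ⟨a0, -, -⟩ := hUm u hu
        obtain ⟨b0, -, -⟩ := hUm v hv
        unfold Tri at a0 b0
        rw [mem_filter] at a0 b0
        obtain ⟨-, a1, a2, a3, a4⟩ := a0
        obtain ⟨-, b1, b2, b3, b4⟩ := b0
        have hne : ∀ {i j : Fin n}, bl w i ≠ bl w j → i ≠ j := fun h e => h (by rw [e])
        obtain ⟨e1, e2⟩ := isForm_unique (hne (by omega)) (hne (by omega)) (hne (by omega))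
          (hne (by omega)) (hne (by omega)) (hne (by omega)) h1 h2
        rcases e2 with ⟨e2, e3⟩ | ⟨e2, e3⟩
        · exact Prod.ext e2 (Prod.ext e3 e1)
        · exfalso
          have f1 : bl w u.1 = bl w v.2.1 := by rw [e2]
          omega
      have hcard : U.card ≤ (univ : Finset (Fin m2)).card :=
        Finset.card_le_card_of_injOn l (fun _ _ => mem_univ _) hinj
      rw [card_univ, Fintype.card_fin] at hcard
      rw [hc]
      have h1 : RTree.cost (RTree.round m2 L2 b2 child2) (x ∘ π) =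
        m2 + (child2 (signs L2 b2 (x ∘ π))).cost (x ∘ π) := rfl
      rw [h1]
      omega

end Pool.Agent.H81.TR
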