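import Pool.Agent.H72.TR.Stm3
import Pool.Agent.H81.TR.Second

/-!
# 3SUM in two rounds: module SECOND3
-/

set_option autoImplicit false

namespace Pool.Agent.H81.TR

open Finset Pool.Agent.H72.TR Pool.Agent.K4H88.Ter Pool.Agent.K4H88.Rounds

/-- **Module SECOND3.** -/
theorem second3 (hI : INST3) : SECOND3 := by
  classical
  intro n S hn1 hS U hU hUn 𝒯 h𝒯
  obtain ⟨x, hx, hx3⟩ := hI n S hn1 hS U hU hUn
  have hyz : ∀ t : Fin n × Fin n × Fin n, ∃ y z : Fin n → ℤ, t ∈ 𝒯 →
      (StrictMono y ∧ Rng (2000 * S * n ^ 2) y ∧ ¬ HasSum3 y) ∧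
      (StrictMono z ∧ Rng (2000 * S * n ^ 2) z ∧ HasSum3 z) ∧
        (∀ (L : Fin n → ℝ) (β : ℝ), ThreeTerms L → |β| < S →
          (¬ ∃ i j k, IsForm L i j k ∧ InU U (U t.1) (U t.2.1) i j k) →
            out L β y = out L β x ∧ out L β z = out L β x) ∧
        ∀ (L : Fin n → ℝ) (β : ℝ), ThreeTerms L → |β| < S → ¬ IsForm L t.1 t.2.1 t.2.2 →
          out L β z = out L β y := by
    intro t
    by_cases ht : t ∈ 𝒯
    · obtain ⟨y, z, h⟩ := hx3 t.1 t.2.1 t.2.2 (h𝒯 t ht).1 (h𝒯 t ht).2
      exact ⟨y, z, fun _ => h⟩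
    · exact ⟨0, 0, fun h => absurd h ht⟩
  choose y z hyz using hyz
  refine ⟨x, y, z, hx, fun t ht => (hyz t ht).1, fun t ht => (hyz t ht).2.1, ?_⟩
  intro F hF
  rcases rtree_succ F with ⟨c, rfl⟩ | ⟨mm, L, b, child, rfl⟩
  · have hE : (𝒯.filter fun t => ¬ HitU U (fL (RTree.leaf c : RTree n 2)) (U t.1) (U t.2.1) ∧
        (RTree.leaf c : RTree n 2).eval (y t) = false ∧
          (RTree.leaf c : RTree n 2).eval (z t) = true) = ∅ := by
      rw [filter_eq_empty_iff]
      rintro t - ⟨-, h1, h2⟩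
      have h3 : c = false := h1
      have h4 : c = true := h2
      rw [h3] at h4
      exact Bool.noConfusion h4
    rw [hE]
    exact Nat.zero_le _
  · obtain ⟨hT1, hT2⟩ := hF
    obtain ⟨σ, hσ⟩ : ∃ σ, σ = signs L b x := ⟨_, rfl⟩
    have hcost : RTree.cost (RTree.round mm L b child) x = mm + (child σ).cost x := by
      rw [hσ]
      rfl
    rw [hcost]
    refine Nat.add_le_add_left ?_ _
    obtain ⟨V, hV⟩ : ∃ V, V = 𝒯.filter fun t => ¬ HitU U (fL (RTree.round mm L b child))
          (U t.1) (U t.2.1) ∧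
            (RTree.round mm L b child).eval (y t) = false ∧
            (RTree.round mm L b child).eval (z t) = true := ⟨_, rfl⟩
    rw [← hV]
    have hVm : ∀ t ∈ V, t ∈ 𝒯 ∧ (child σ).eval (y t) = false ∧
        (child σ).eval (z t) = true := by
      intro t ht
      rw [hV, mem_filter] at ht
      obtain ⟨h0, h1, h2, h3⟩ := ht
      obtain ⟨-, -, k1, k2⟩ := hyz t h0
      have hl : ∀ l, ¬ ∃ i j k, IsForm (L l) i j k ∧ InU U (U t.1) (U t.2.1) i j k :=
        fun l h => h1 ⟨l, h⟩
      have hsy : signs L b (y t) = σ := by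
        rw [hσ]
        funext l
        exact (k1 (L l) (b l) (hT1 l).1 (hT1 l).2 (hl l)).1
      have hsz : signs L b (z t) = σ := by
        rw [hσ]
        funext l
        exact (k1 (L l) (b l) (hT1 l).1 (hT1 l).2 (hl l)).2
      refine ⟨h0, ?_, ?_⟩
      · rw [← h2, ← hsy]
        rfl
      · rw [← h3, ← hsz]
        rfl
    rcases V.eq_empty_or_nonempty with hVe | ⟨t0, ht0⟩
    · rw [hVe]
      simp
    rcases rtree_succ (child σ) with ⟨c, hc⟩ | ⟨m2, L2, b2, child2, hc⟩
    · exfalso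
      obtain ⟨-, h1, h2⟩ := hVm t0 ht0
      rw [hc] at h1 h2
      have h3 : c = false := h1
      have h4 : c = true := h2
      rw [h3] at h4
      exact Bool.noConfusion h4
    · have hT3 : ∀ j, ThreeTerms (L2 j) ∧ |b2 j| < (S : ℝ) := by
        have h1 := hT2 σ
        rw [hc] at h1
        exact h1.1
      have hl2 : ∀ t : Fin n × Fin n × Fin n, t ∈ V → ∃ l : Fin m2,
          IsForm (L2 l) t.1 t.2.1 t.2.2 := by
        intro t ht
        obtain ⟨h0, h1, h2⟩ := hVm t ht
        obtain ⟨-, -, -, h3⟩ := hyz t h0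
        by_contra hno
        push Not at hno
        have h4 : signs L2 b2 (z t) = signs L2 b2 (y t) := by
          funext l
          exact h3 (L2 l) (b2 l) (hT3 l).1 (hT3 l).2 (hno l)
        rw [hc] at h1 h2
        have h6 : (child2 (signs L2 b2 (y t))).eval (y t) = false := h1
        have h7 : (child2 (signs L2 b2 (z t))).eval (z t) = true := h2
        rw [h4, eval_zero _ (z t) (y t), h6] at h7
        exact Bool.noConfusion h7
      have hne2 : Nonempty (Fin m2) := ⟨(hl2 t0 ht0).choose⟩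
      choose! l hl using hl2
      have hinj : Set.InjOn l (V : Set (Fin n × Fin n × Fin n)) := by
        intro u hu v hv huv
        have h1 := hl u hu
        have h2 := hl v hv
        rw [huv] at h1
        obtain ⟨a0, -, -⟩ := hVm u hu
        obtain ⟨b0, -, -⟩ := hVm v hv
        obtain ⟨a1, a2⟩ := h𝒯 u a0
        obtain ⟨b1, b3⟩ := h𝒯 v b0
        have hne : ∀ {i j : Fin n}, U i ≠ U j → i ≠ j := fun h e => h (by rw [e])
        obtain ⟨e1, e2⟩ := isForm_unique (hne (by omega)) (hne (by omega)) (hne (by omega))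
          (hne (by omega)) (hne (by omega)) (hne (by omega)) h1 h2
        rcases e2 with ⟨e2, e3⟩ | ⟨e2, e3⟩
        · exact Prod.ext e2 (Prod.ext e3 e1)
        · exfalso
          have f1 : U u.1 = U v.2.1 := by rw [e2]
          have f2 : U u.2.1 = U v.1 := by rw [e3]
          omega
      have hcard : V.card ≤ (univ : Finset (Fin m2)).card :=
        Finset.card_le_card_of_injOn l (fun _ _ => mem_univ _) hinj
      rw [card_univ, Fintype.card_fin] at hcard
      rw [hc]
      have h1 : RTree.cost (RTree.round m2 L2 b2 child2) x =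
        m2 + (child2 (signs L2 b2 x)).cost x := rfl
      rw [h1]
      omega

end Pool.Agent.H81.TR
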